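import Mathlib
import Pool.Agent.Lib.MP_250825_gt.Defs
import Pool.Agent.Lib.MP_250825_gt.Main

namespace Pool.Agent.Results.MP_250825_gt.HereditaryP

open Pool.Agent.Lib.MP_250825_gt

universe u v

/-- If a Hausdorff space `Y` is a continuous image of a compact connected linearly ordered
topological space `L` and every subspace of `Y` is a p-space, then `Y` is metrizable. -/
theorem result {L : Type u} {Y : Type v} [LinearOrder L] [TopologicalSpace L] [OrderTopology L]
    [CompactSpace L] [PreconnectedSpace L] [TopologicalSpace Y] [T2Space Y]
    (f : L → Y) (hf : Continuous f) (hs : Function.Surjective f)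
    (hp : ∀ S : Set Y, IsPSpace S) : TopologicalSpace.MetrizableSpace Y :=
  main f hf hs hp

end Pool.Agent.Results.MP_250825_gt.HereditaryP
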